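import Pool.Agent.Helper92.TG.GoalsX

/-! # TG-VAL: a valuation ring which contains the constants and not a given transcendental element -/

namespace Pool.Agent.Helper29.TG.VAL

open Polynomial

theorem t : Pool.Agent.Helper92.TG.VAL := by
  intro F Ω _ _ _ s hs
  have hs0 : s ≠ 0 := by
    rintro rfl
    exact hs isAlgebraic_zero
  have hsi : Transcendental F s⁻¹ := by
    intro h
    apply hs
    have h2 := h.inv
    rwa [inv_inv] at h2
  let A : Subring Ω := (Algebra.adjoin F {s⁻¹}).toSubring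
  have hsA : s⁻¹ ∈ A := Algebra.self_mem_adjoin_singleton F s⁻¹
  let I : Ideal A := Ideal.span {⟨s⁻¹, hsA⟩}
  have hI : I ≠ ⊤ := by
    intro htop
    have h1 : (1 : A) ∈ I := by rw [htop]; trivial
    rw [Ideal.mem_span_singleton'] at h1
    obtain ⟨a, ha⟩ := h1
    have ha2 : (a : Ω) * s⁻¹ = 1 := by
      have := congrArg (fun z : A => (z : Ω)) ha
      simpa using this
    have h3 : (a : Ω) ∈ Algebra.adjoin F {s⁻¹} := a.2
    rw [Algebra.adjoin_singleton_eq_range_aeval] at h3
    obtain ⟨p, hp⟩ := h3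
    apply hsi
    refine ⟨p * X - 1, ?_, ?_⟩
    · intro h0
      have h4 := congrArg (fun q : F[X] => q.coeff 0) h0
      simp at h4
    · have hp' : aeval s⁻¹ p = (a : Ω) := hp
      rw [map_sub, map_mul, aeval_X, map_one, hp', ha2, sub_self]
  obtain ⟨V, hAV, hIV⟩ := Ideal.image_subset_nonunits_valuationSubring I hI
  refine ⟨V, fun c => hAV ((Algebra.adjoin F {s⁻¹}).algebraMap_mem c), fun hsV => ?_⟩
  have h5 : s⁻¹ ∈ V.nonunits := by
    apply hIV
    exact ⟨⟨s⁻¹, hsA⟩, Ideal.subset_span rfl, rfl⟩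
  rw [ValuationSubring.mem_nonunits_iff] at h5
  have h6 : V.valuation s ≤ 1 := (V.valuation_le_one_iff s).2 hsV
  have h7 : V.valuation s * V.valuation s⁻¹ = 1 := by
    rw [← map_mul, mul_inv_cancel₀ hs0, map_one]
  have h8 : V.valuation s * V.valuation s⁻¹ < 1 := by
    calc V.valuation s * V.valuation s⁻¹ ≤ 1 * V.valuation s⁻¹ := mul_le_mul_left h6 _
      _ = V.valuation s⁻¹ := one_mul _
      _ < 1 := h5
  rw [h7] at h8
  exact lt_irrefl _ h8

end Pool.Agent.Helper29.TG.VAL
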